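import Mathlib
import Pool.Agent.Helper84.Kos.Goals3

set_option autoImplicit false

/-!
# Packet G8 of MP_315210_al: nilpotent groups contain no free semigroup of rank two
-/

namespace Pool.Agent.Helper88.Kos

open Pool.Agent.Helper84.Kos

/-- the recursion `(u, v) ↦ (u v, v u)` -/
def stp {S : Type} [Mul S] (p : S × S) : S × S := (p.1 * p.2, p.2 * p.1)

theorem stp_mem {G : Type} [Group G] (p : G × G) (n : ℕ) :
    (stp^[n] p).1 * (stp^[n] p).2⁻¹ ∈ (⊤ : Subgroup G).lowerCentralSeries n := by
  induction n with
  | zero => exact Subgroup.mem_top _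
  | succ n ih =>
    rw [Function.iterate_succ_apply']
    set u := (stp^[n] p).1 with hu
    set v := (stp^[n] p).2 with hv
    have h1 : stp (stp^[n] p) = (u * v, v * u) := rfl
    rw [h1, Subgroup.lowerCentralSeries_succ]
    have h3 := Subgroup.commutator_mem_commutator ih (Subgroup.mem_top v)
    rw [commutatorElement_def] at h3
    have h2 : (u * v, v * u).1 * (u * v, v * u).2⁻¹ =
        u * v⁻¹ * v * (u * v⁻¹)⁻¹ * v⁻¹ := by
      simp only
      group
    rw [h2]
    exact h3

theorem stp_map {S T : Type} [Mul S] [Mul T] (f : S →ₙ* T) (p : S × S) (n : ℕ) :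
    stp^[n] (f p.1, f p.2) = (f (stp^[n] p).1, f (stp^[n] p).2) := by
  induction n with
  | zero => rfl
  | succ n ih =>
    rw [Function.iterate_succ_apply', Function.iterate_succ_apply', ih]
    simp only [stp, map_mul]

theorem stp_head (n : ℕ) :
    (stp^[n] (FreeSemigroup.of true, FreeSemigroup.of false)).1.head = true ∧
    (stp^[n] (FreeSemigroup.of true, FreeSemigroup.of false)).2.head = false := by
  induction n with
  | zero => exact ⟨rfl, rfl⟩
  | succ n ih =>
    rw [Function.iterate_succ_apply']
    exact ⟨by simp only [stp, FreeSemigroup.head_mul]; exact ih.1,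
      by simp only [stp, FreeSemigroup.head_mul]; exact ih.2⟩

theorem stmtG8 : StmtG8 := by
  intro G _ c hc f hf
  have h1 := stp_mem (f true, f false) c
  rw [hc, Subgroup.mem_bot, mul_inv_eq_one] at h1
  have h2 := stp_map (FreeSemigroup.lift f) (FreeSemigroup.of true, FreeSemigroup.of false) c
  simp only [FreeSemigroup.lift_of] at h2
  rw [h2] at h1
  have h3 := hf h1
  have h4 := stp_head c
  rw [h3, h4.2] at h4
  exact absurd h4.1 (by decide)

theorem stmtS01099 (hU : StmtUniform) (h7 : StmtG7) (h8 : StmtG8) : StmtS01099 := by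
  intro k G _ hE hR f hf
  have hE' : EngelG (k + 1) G := by
    intro x y
    rw [Function.iterate_succ_apply', hE x y]
    group
  obtain ⟨c, hc⟩ := hU (k + 1)
  let H : Subgroup G := Subgroup.closure {f true, f false}
  have ht : f true ∈ H := Subgroup.subset_closure (by simp)
  have hff : f false ∈ H := Subgroup.subset_closure (by simp)
  have hEH : EngelG (k + 1) H := by
    intro x y
    apply Subtype.ext
    have h1 : ∀ (n : ℕ) (z : H), (((fun z : H => z⁻¹ * y⁻¹ * z * y)^[n] z : H) : G) =
        (fun z : G => z⁻¹ * (y : G)⁻¹ * z * y)^[n] (z : G) := by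
      intro n
      induction n with
      | zero => intro z; rfl
      | succ n ih =>
        intro z
        rw [Function.iterate_succ_apply, Function.iterate_succ_apply, ih]
        rfl
    rw [h1, hE']
    rfl
  have hRH : RightOrd H := by
    obtain ⟨r, r1, r2, r3, r4⟩ := hR
    refine ⟨fun a b => r a b, fun a => r1 a, fun a b c => r2 a b c, fun a b => ?_,
      fun a b c h => r4 a b c h⟩
    rcases r3 (a : G) b with h | h | h
    · exact Or.inl h
    · exact Or.inr (Or.inl (Subtype.ext h))
    · exact Or.inr (Or.inr h)
  have hcl : Subgroup.closure {(⟨f true, ht⟩ : H), ⟨f false, hff⟩} = ⊤ := by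
    have h1 := Subgroup.closure_closure_coe_preimage (k := ({f true, f false} : Set G))
    rw [← h1]
    congr 1
    ext x
    simp only [Set.mem_insert_iff, Set.mem_singleton_iff, Set.mem_preimage, Subtype.ext_iff]
  have h9 := h7 (k + 1) c (by omega) hc H hEH hRH _ _ hcl
  refine h8 H c h9 (fun b => match b with | true => ⟨f true, ht⟩ | false => ⟨f false, hff⟩) ?_
  intro x y hxy
  apply hf
  have h10 : ∀ w : FreeSemigroup Bool, FreeSemigroup.lift f w =
      ((FreeSemigroup.lift (fun b : Bool => match b with
        | true => (⟨f true, ht⟩ : H) | false => ⟨f false, hff⟩) w : H) : G) := by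
    intro w
    have h11 : FreeSemigroup.lift f = (H.subtype : H →ₙ* G).comp
        (FreeSemigroup.lift (fun b : Bool => match b with
        | true => (⟨f true, ht⟩ : H) | false => ⟨f false, hff⟩)) := by
      apply FreeSemigroup.hom_ext
      funext b
      cases b <;> rfl
    rw [h11]
    rfl
  rw [h10, h10, hxy]

end Pool.Agent.Helper88.Kos
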