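import Mathlib
import Pool.Agent.Helper84.Kos.Goals3

set_option autoImplicit false

/-!
# Packet Hol of MP_315210_al: the theorem of Hölder
-/

namespace Pool.Agent.Helper88.Kos

open Pool.Agent.Helper84.Kos

section

variable {Q : Type} [Group Q] [LinearOrder Q] [MulLeftMono Q] [MulRightMono Q]

omit [MulLeftMono Q] [MulRightMono Q] in
theorem floor_pow {y a : Q} (ha : 1 ≤ a) (harch : ∃ n : ℕ, a < y ^ n) :
    ∃ m : ℕ, y ^ m ≤ a ∧ a < y ^ (m + 1) := by
  classical
  have hspec := Nat.find_spec harch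
  have hmin : ∀ m < Nat.find harch, ¬ a < y ^ m := fun m hm => Nat.find_min harch hm
  cases h : Nat.find harch with
  | zero =>
    rw [h, pow_zero] at hspec
    exact absurd hspec (not_lt.2 ha)
  | succ m =>
    exact ⟨m, not_lt.1 (hmin m (by omega)), by rw [h] at hspec; exact hspec⟩

theorem holder_pos (harch : ∀ x y : Q, 1 < x → ∃ n : ℕ, y < x ^ n) {a b : Q} (ha : 1 < a)
    (hb : 1 < b) : a * b = b * a := by
  by_cases hle : ∃ e : Q, 1 < e ∧ ∀ x, 1 < x → e ≤ x
  · obtain ⟨e, he, hmin⟩ := hle
    have key : ∀ x : Q, 1 < x → ∃ n : ℕ, x = e ^ n := by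
      intro x hx
      obtain ⟨m, h1, h2⟩ := floor_pow hx.le (harch e x he)
      refine ⟨m, ?_⟩
      by_contra hne
      have h3 : e ^ m < x := lt_of_le_of_ne h1 (Ne.symm hne)
      have h4 : 1 < x * (e ^ m)⁻¹ := by rwa [lt_mul_inv_iff_mul_lt, one_mul]
      have h5 := hmin _ h4
      rw [le_mul_inv_iff_mul_le, ← pow_succ'] at h5
      exact absurd h2 (not_lt.2 h5)
    obtain ⟨m, rfl⟩ := key a ha
    obtain ⟨n, rfl⟩ := key b hb
    rw [← pow_add, ← pow_add, add_comm]
  · have hle' : ∀ e : Q, 1 < e → ∃ x, 1 < x ∧ x < e := by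
      intro e he
      by_contra hcon
      push Not at hcon
      exact hle ⟨e, he, hcon⟩
    have hsq : ∀ c : Q, 1 < c → ∃ y : Q, 1 < y ∧ y * y ≤ c := by
      intro c hc
      obtain ⟨z, hz1, hz2⟩ := hle' c hc
      by_cases h : z * z ≤ c
      · exact ⟨z, hz1, h⟩
      · rw [not_le] at h
        refine ⟨c * z⁻¹, by rwa [lt_mul_inv_iff_mul_lt, one_mul], ?_⟩
        have h1 : c * z⁻¹ < z := by rwa [mul_inv_lt_iff_lt_mul]
        calc c * z⁻¹ * (c * z⁻¹) ≤ c * z⁻¹ * z := mul_le_mul' le_rfl h1.le
          _ = c := by group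
    have key : ∀ a b : Q, 1 < a → 1 < b → ¬ b * a < a * b := by
      intro a b ha hb h
      obtain ⟨y, hy, hyc⟩ := hsq (a * b * (b * a)⁻¹) (by rwa [lt_mul_inv_iff_mul_lt, one_mul])
      obtain ⟨m, ha1, ha2⟩ := floor_pow ha.le (harch y a hy)
      obtain ⟨n, hb1, hb2⟩ := floor_pow hb.le (harch y b hy)
      have h1 : a * b < y ^ (m + 1) * y ^ (n + 1) := mul_lt_mul_of_lt_of_lt ha2 hb2
      have h2 : y ^ n * y ^ m ≤ b * a := mul_le_mul' hb1 ha1
      have h3 : y ^ (m + 1) * y ^ (n + 1) = y * y * (y ^ n * y ^ m) := by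
        rw [← pow_add, ← pow_add, ← sq, ← pow_add]
        congr 1
        omega
      have h4 : y * y * (y ^ n * y ^ m) ≤ y * y * (b * a) := mul_le_mul' le_rfl h2
      have h5 : y * y * (b * a) ≤ a * b := by
        rwa [le_mul_inv_iff_mul_le] at hyc
      rw [h3] at h1
      exact absurd (h1.trans_le h4) (not_lt.2 h5)
    rcases lt_trichotomy (a * b) (b * a) with h | h | h
    · exact absurd h (key b a hb ha)
    · exact h
    · exact absurd h (key a b ha hb)

theorem holder (harch : ∀ x y : Q, 1 < x → ∃ n : ℕ, y < x ^ n) (x y : Q) : x * y = y * x := by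
  have h1 : ∀ a b : Q, 1 < a → Commute a b := by
    intro a b ha
    rcases lt_trichotomy 1 b with hb | hb | hb
    · exact holder_pos harch ha hb
    · rw [← hb]
      exact Commute.one_right a
    · have hb' : 1 < b⁻¹ := one_lt_inv'.2 hb
      have h2 : Commute a b⁻¹ := holder_pos harch ha hb'
      have h3 := h2.inv_right
      rwa [inv_inv] at h3
  rcases lt_trichotomy 1 x with hx | hx | hx
  · exact h1 x y hx
  · rw [← hx, one_mul, mul_one]
  · have h2 := (h1 x⁻¹ y (one_lt_inv'.2 hx)).inv_left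
    rw [inv_inv] at h2
    exact h2

end

theorem stmtHol : StmtHol := by
  intro Q _ P h1 htot hmul hconj harch
  classical
  have hanti : ∀ x y : Q, y * x⁻¹ ∈ P → x * y⁻¹ ∈ P → False := by
    intro x y hx hy
    have h := hmul _ hx _ hy
    have h2 : y * x⁻¹ * (x * y⁻¹) = 1 := by group
    rw [h2] at h
    exact h1 h
  have htrans : ∀ x y z : Q, y * x⁻¹ ∈ P → z * y⁻¹ ∈ P → z * x⁻¹ ∈ P := by
    intro x y z hx hy
    have h := hmul _ hy _ hx
    have h2 : z * y⁻¹ * (y * x⁻¹) = z * x⁻¹ := by group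
    rwa [h2] at h
  letI : LinearOrder Q :=
    { le := fun x y => x = y ∨ y * x⁻¹ ∈ P
      lt := fun x y => y * x⁻¹ ∈ P
      le_refl := fun x => Or.inl rfl
      le_trans := fun x y z hx hy => by
        rcases hx with rfl | hx
        · exact hy
        · rcases hy with rfl | hy
          · exact Or.inr hx
          · exact Or.inr (htrans x y z hx hy)
      lt_iff_le_not_ge := fun x y => by
        constructor
        · intro h
          refine ⟨Or.inr h, ?_⟩
          rintro (rfl | h2)
          · rw [mul_inv_cancel] at h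
            exact h1 h
          · exact hanti x y h h2
        · rintro ⟨h | h, h2⟩
          · exact absurd (Or.inl h.symm) h2
          · exact h
      le_antisymm := fun x y hx hy => by
        rcases hx with hx | hx
        · exact hx
        · rcases hy with hy | hy
          · exact hy.symm
          · exact (hanti x y hx hy).elim
      le_total := fun x y => by
        rcases htot (y * x⁻¹) with h | h | h
        · exact Or.inl (Or.inr h)
        · exact Or.inl (Or.inl (mul_inv_eq_one.1 h).symm)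
        · have h2 : (y * x⁻¹)⁻¹ = x * y⁻¹ := by group
          rw [h2] at h
          exact Or.inr (Or.inr h)
      toDecidableLE := Classical.decRel _ }
  haveI : MulLeftMono Q := ⟨fun g x y hxy => by
    rcases hxy with rfl | hxy
    · exact le_rfl
    · refine Or.inr ?_
      have h2 : g * y * (g * x)⁻¹ = g * (y * x⁻¹) * g⁻¹ := by group
      rw [h2]
      exact hconj _ hxy g⟩
  haveI : MulRightMono Q := ⟨fun g x y hxy => by
    rcases hxy with rfl | hxy
    · exact le_rfl
    · refine Or.inr ?_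
      show y * g * (x * g)⁻¹ ∈ P
      have h2 : y * g * (x * g)⁻¹ = y * x⁻¹ := by group
      rw [h2]
      exact hxy⟩
  have hlt : ∀ x y : Q, x < y ↔ y * x⁻¹ ∈ P := fun x y => Iff.rfl
  apply holder
  intro x y hx
  have hx' : x ∈ P := by
    have := (hlt 1 x).1 hx
    rwa [inv_one, mul_one] at this
  by_cases hy : 1 < y
  · have hy' : y ∈ P := by
      have := (hlt 1 y).1 hy
      rwa [inv_one, mul_one] at this
    obtain ⟨n, hn⟩ := harch x hx' y hy'
    exact ⟨n, (hlt _ _).2 hn⟩
  · refine ⟨1, ?_⟩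
    rw [pow_one]
    exact lt_of_le_of_lt (not_lt.1 hy) hx

end Pool.Agent.Helper88.Kos
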